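import Pool.Agent.Helper21_X1.Min
import Pool.Agent.Helper65_BN.Bhw
import Pool.Agent.Helper99_BN.Cns
import Pool.Agent.Helper18_X1.Upg
import Pool.Agent.Helper32_X1.Clo
import Pool.Agent.Helper11_X1.Lng

/-!
# Squad X1, module VUI

The fixed points of `U` in an irreducible representation of a parabolic subgroup.
-/

set_option autoImplicit false

noncomputable section

namespace Pool.Agent.PP.X1.H21

open Pool.Agent.PP Matrix Pool.Agent.PP.BN.H65 Pool.Agent.PP.BN.H99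

variable {F G : Type} [Field F] [Group G] {ℓ : ℕ}

theorem n_mem_PJ (R : RGD ℓ G) {J : Finset (Fin R.r)} {i : Fin R.r} (hi : i ∈ J) :
    R.n i ∈ R.PJ J := by
  have h : R.X (R.a i) ⊔ R.X (-R.a i) ≤ R.PJ J := by
    refine sup_le ?_ ?_
    · exact (R.X_le_gp (A := R.pos ∪ R.lev J) (Or.inl (R.a_pos i))).trans le_sup_right
    · exact (R.X_le_gp (A := R.pos ∪ R.lev J) (Or.inr ⟨R.neg_a_mem i,
        Submodule.neg_mem _ (Submodule.subset_span ⟨i, hi, rfl⟩)⟩)).trans le_sup_right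
  exact h (R.nmem i)

theorem nw_mem_PJ (R : RGD ℓ G) {J : Finset (Fin R.r)} (w : List (Fin R.r))
    (hw : ∀ j ∈ w, j ∈ J) : R.nw w ∈ R.PJ J := by
  induction w with
  | nil => exact (R.PJ J).one_mem
  | cons i w ih =>
    rw [R.nw_cons]
    exact (R.PJ J).mul_mem (n_mem_PJ R (hw i (List.mem_cons_self ..)))
      (ih fun j hj => hw j (List.mem_cons_of_mem _ hj))

theorem fx_ne_bot [Fact ℓ.Prime] [Finite G] (hF : GoodF ℓ F) (R : RGD ℓ G)
    {J : Finset (Fin R.r)} {k : ℕ} (hk : 0 < k) (ρ : R.PJ J →* Matrix (Fin k) (Fin k) F) :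
    fx R.U ρ ≠ ⊥ := by
  have hpU : IsPGroup ℓ R.U :=
    Pool.Agent.PP.X1.H18.upg ℓ G R R.pos (Pool.Agent.PP.X1.H32.clo ℓ G R).1 subset_rfl
  obtain ⟨v, hv, hfix⟩ := Pool.Agent.PP.H20.fixed_vector hF.prime hF.char R.U hpU hk
    (ρ.comp (Subgroup.inclusion (U_le_PJ R J)))
  intro h0
  apply hv
  have h1 : v ∈ fx R.U ρ := by
    intro u hu
    rw [ro_mem ρ (U_le_PJ R J hu)]
    exact hfix ⟨u, hu⟩
  rw [h0, Submodule.mem_bot] at h1
  exact h1

theorem ro_dual {P : Subgroup G} {k : ℕ} (ρ : P →* Matrix (Fin k) (Fin k) F) {g : G}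
    (hg : g ∈ P) : ro (dual ρ) g = (ro ρ g⁻¹)ᵀ := by
  rw [ro_mem _ hg, ro_mem _ (P.inv_mem hg)]
  rfl

theorem dual_dual {H : Type} [Group H] {k : ℕ} (ρ : H →* Matrix (Fin k) (Fin k) F) :
    dual (dual ρ) = ρ := by
  apply MonoidHom.ext
  intro g
  rw [dual_apply, dual_apply, inv_inv, transpose_transpose]

/-- a functional which is invariant under `U` and vanishes on `n L` vanishes -/
theorem functional (hCYX : CycxStmt) [Fact ℓ.Prime] [Finite G] (hF : GoodF ℓ F) (R : RGD ℓ G)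
    {J : Finset (Fin R.r)} {k : ℕ} (ρ : R.PJ J →* Matrix (Fin k) (Fin k) F) (hρ : IsIrr ρ)
    {L : Submodule F (Fin k → F)} (hL0 : L ≠ ⊥) (hLf : L ≤ fx R.U ρ) (hLT : TS R ρ L)
    (hLA : AS R J ρ L) (φ : (Fin k → F) →ₗ[F] F)
    (hφ : ∀ u ∈ R.U, ∀ v, φ ((ro ρ u).mulVec v) = φ v) (w : List (Fin R.r))
    (hw : ∀ j ∈ w, j ∈ J) (hwn : ∀ b ∈ R.pos ∩ R.lev J, R.sw w b ∈ R.neg)
    (h0 : ∀ v ∈ L, φ ((ro ρ (R.nw w)).mulVec v) = 0) : φ = 0 := by
  set S : Set (Fin k → F) := {x | ∃ u ∈ R.U, ∃ v' ∈ L, x = (ro ρ (u * R.nw w)).mulVec v'} with hS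
  set W : Submodule F (Fin k → F) := Submodule.span F {x | ∃ g : R.PJ J, ∃ v ∈ L,
    x = (ρ g).mulVec v} with hW
  have hinv : Inv ρ W := by
    intro g x hx
    induction hx using Submodule.span_induction with
    | mem x hx =>
      obtain ⟨g', v, hv, rfl⟩ := hx
      apply Submodule.subset_span
      refine ⟨g * g', v, hv, ?_⟩
      rw [map_mul, mulVec_mulVec]
    | zero =>
      rw [mulVec_zero]
      exact Submodule.zero_mem _
    | add x y _ _ hx hy =>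
      rw [mulVec_add]
      exact Submodule.add_mem _ hx hy
    | smul c x _ hx =>
      rw [mulVec_smul]
      exact Submodule.smul_mem _ c hx
  have hWne : W ≠ ⊥ := by
    obtain ⟨v, hv, hv0⟩ := Submodule.exists_mem_ne_zero_of_ne_bot hL0
    intro hb
    apply hv0
    have h1 : v ∈ W := Submodule.subset_span ⟨1, v, hv, by rw [map_one, one_mulVec]⟩
    rw [hb, Submodule.mem_bot] at h1
    exact h1
  have hWtop : W = ⊤ := top_of_inv hρ hinv hWne
  have hWS : W ≤ Submodule.span F S := by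
    rw [hW, Submodule.span_le]
    rintro _ ⟨g, v, hv, rfl⟩
    have h1 := hCYX ℓ F hF G R J k ρ L hLf hLT hLA w hw hwn g g.2 v hv
    rw [ro_coe] at h1
    exact h1
  have hSker : Submodule.span F S ≤ LinearMap.ker φ := by
    rw [Submodule.span_le]
    rintro _ ⟨u, hu, v, hv, rfl⟩
    rw [SetLike.mem_coe, LinearMap.mem_ker,
      ro_mul ρ (U_le_PJ R J hu) (nw_mem_PJ R w hw), ← mulVec_mulVec, hφ u hu]
    exact h0 v hv
  apply LinearMap.ext
  intro v
  have h1 : v ∈ W := by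
    rw [hWtop]
    exact Submodule.mem_top
  exact LinearMap.mem_ker.1 (hSker (hWS h1))

/-- the dimension of the fixed points of the contragredient representation -/
theorem finrank_dual_le (hCYX : CycxStmt) [Fact ℓ.Prime] [Finite G] (hF : GoodF ℓ F)
    (R : RGD ℓ G) {J : Finset (Fin R.r)} {k : ℕ} (ρ : R.PJ J →* Matrix (Fin k) (Fin k) F)
    (hρ : IsIrr ρ) {L : Submodule F (Fin k → F)} (hL0 : L ≠ ⊥) (hLf : L ≤ fx R.U ρ)
    (hLT : TS R ρ L) (hLA : AS R J ρ L) :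
    Module.finrank F (fx R.U (dual ρ)) ≤ Module.finrank F L := by
  obtain ⟨w, hw, hwn⟩ := (Pool.Agent.PP.X1.H11.lng ℓ G R J).2
  let Ψ : fx R.U (dual ρ) →ₗ[F] Module.Dual F L :=
    (Module.Dual.transpose (R := F) ((ro ρ (R.nw w)).mulVecLin ∘ₗ L.subtype)) ∘ₗ
      (dotProductEquiv F (Fin k)).toLinearMap ∘ₗ (fx R.U (dual ρ)).subtype
  have hΨ : ∀ (c : fx R.U (dual ρ)) (v : L),
      Ψ c v = (c : Fin k → F) ⬝ᵥ (ro ρ (R.nw w)).mulVec (v : Fin k → F) := fun c v => rfl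
  have hinj : Function.Injective Ψ := by
    rw [injective_iff_map_eq_zero]
    intro c hc
    have h1 : dotProductEquiv F (Fin k) (c : Fin k → F) = 0 := by
      refine functional hCYX hF R ρ hρ hL0 hLf hLT hLA _ ?_ w hw hwn ?_
      · intro u hu v
        have h2 := c.2 u⁻¹ (R.U.inv_mem hu)
        rw [ro_dual ρ (U_le_PJ R J (R.U.inv_mem hu)), inv_inv, mulVec_transpose] at h2
        rw [dotProductEquiv_apply_apply, dotProductEquiv_apply_apply, dotProduct_mulVec, h2]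
      · intro v hv
        rw [dotProductEquiv_apply_apply, ← hΨ c ⟨v, hv⟩, hc]
        rfl
    have h3 := (LinearEquiv.map_eq_zero_iff _).1 h1
    exact Subtype.ext h3
  calc Module.finrank F (fx R.U (dual ρ)) ≤ Module.finrank F (Module.Dual F L) :=
        LinearMap.finrank_le_finrank_of_injective hinj
    _ = Module.finrank F L := Subspace.dual_finrank_eq

theorem vui (hCYX : CycxStmt) (hMIN : MinStmt) (hTRI : TriStmt) (hACA : AcaStmt) : VuiStmt := by
  intro ℓ _ F _ hF G _ _ R J k ρ hρ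
  obtain ⟨ha1, ha2, ha3, ha4, ha5, ha6⟩ := hACA ℓ F hF G R J k ρ
  obtain ⟨-, -, hd3, -, hd5, -⟩ := hACA ℓ F hF G R J k (dual ρ)
  have hne : fx R.U ρ ≠ ⊥ := fx_ne_bot hF R hρ.1 ρ
  have hned : fx R.U (dual ρ) ≠ ⊥ := fx_ne_bot hF R hρ.1 (dual ρ)
  have h2 : ∀ L : Submodule F (Fin k → F), L ≠ ⊥ → L ≤ fx R.U ρ → TS R ρ L → AS R J ρ L →
      L = fx R.U ρ := by
    intro L hL0 hLf hLT hLA
    have h3 := finrank_dual_le hCYX hF R ρ hρ hL0 hLf hLT hLA
    have h4 := finrank_dual_le hCYX hF R (dual ρ) (dual_irr hρ) hned le_rfl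
      (fun t ht v hv => hd5 t ht v hv) (fun i hi v hv => hd3 i hi v hv)
    rw [dual_dual] at h4
    exact Submodule.eq_of_le_of_finrank_le hLf (h4.trans h3)
  have h3 : ∀ L : Submodule F (Fin k → F), L ≤ fx R.U ρ → TS R ρ L → L = ⊥ ∨ L = fx R.U ρ := by
    obtain ⟨L₀, h01, h02, h03, h04, h05⟩ := hMIN ℓ F hF G R J k ρ hne
    have h06 := h2 L₀ h01 h02 h03 h04
    rw [h06] at h05
    exact h05
  refine ⟨hne, h2, h3, ?_, ?_⟩
  · intro i hi
    have hKT : TS R ρ (fx R.U ρ ⊓ LinearMap.ker (Ai R ρ i).mulVecLin) := by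
      rintro t ht v ⟨hv1, hv2⟩
      refine ⟨ha5 t ht v hv1, ?_⟩
      rw [SetLike.mem_coe, LinearMap.mem_ker, mulVecLin_apply] at hv2 ⊢
      rw [ha4 i hi t ht, hv2, mulVec_zero]
    rcases h3 _ inf_le_left hKT with h0 | h0
    · right
      refine hTRI ℓ F hF G R J k ρ i hi (fx R.U ρ) le_rfl (fun t ht v hv => ha5 t ht v hv)
        (fun v hv => ha3 i hi v hv) ?_
      intro v hv hv0
      have h1 : v ∈ fx R.U ρ ⊓ LinearMap.ker (Ai R ρ i).mulVecLin :=
        ⟨hv, by rw [SetLike.mem_coe, LinearMap.mem_ker, mulVecLin_apply]; exact hv0⟩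
      rw [h0, Submodule.mem_bot] at h1
      exact h1
    · left
      intro v hv
      rw [← h0] at hv
      have h1 := hv.2
      rw [SetLike.mem_coe, LinearMap.mem_ker, mulVecLin_apply] at h1
      exact h1
  · intro φ hφ w hw hwn h0
    exact functional hCYX hF R ρ hρ hne le_rfl (fun t ht v hv => ha5 t ht v hv)
      (fun i hi v hv => ha3 i hi v hv) φ hφ w hw hwn h0

end Pool.Agent.PP.X1.H21
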